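import Mathlib

set_option autoImplicit false

namespace Pool.Agent.Results.MP_6d14ae_al.Counter

def s : Fin 4 → Fin 4 → Fin 4 := ![![0, 3, 2, 1], ![1, 2, 3, 0], ![3, 0, 1, 2], ![2, 1, 0, 3]]
def s' : Fin 4 → Fin 4 → Fin 4 := ![![0, 3, 2, 1], ![3, 0, 1, 2], ![1, 2, 3, 0], ![2, 1, 0, 3]]

theorem l1 : ∀ a b, s' a (s a b) = b := by decide
theorem l2 : ∀ a b, s a (s' a b) = b := by decide
theorem l3 : ∀ a b c, s (s a b) (s a c) = s (s b a) (s b c) := by decide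
theorem l4 : ∀ z, ∃ a b, s a (s b 0) = z := by decide

abbrev T := Fin 4 × Fin 4 × Fin 4

def sg (x : T) : Equiv.Perm T where
  toFun y := (s x.2.2 y.2.2, s x.1 y.1, s x.2.1 y.2.1)
  invFun y := (s' x.1 y.2.1, s' x.2.1 y.2.2, s' x.2.2 y.1)
  left_inv y := by simp [l1]
  right_inv y := by simp [l2]

theorem result : ¬ ∀ (X : Type) [Fintype X] [DecidableEq X] (σ : X → Equiv.Perm X),
    (∀ x y z, σ (σ x y) (σ x z) = σ (σ y x) (σ y z)) →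
    (∃ x, ∃ k ∈ (σ x).cycleType, 2 ≤ k ∧ Nat.Coprime k (Fintype.card X)) →
    ∃ Y Z : Set X, Y.Nonempty ∧ Z.Nonempty ∧ Disjoint Y Z ∧ Y ∪ Z = Set.univ ∧
      (∀ y ∈ Y, ∀ z ∈ Z, σ y z ∈ Z) ∧ (∀ z ∈ Z, ∀ y ∈ Y, σ z y ∈ Y) := by
  intro h
  obtain ⟨Y, Z, ⟨y, hy⟩, ⟨z, hz⟩, hd, hu, h1, h2⟩ := h T sg (by
    intro x y z
    simp only [sg, Equiv.coe_fn_mk, Prod.mk.injEq]
    exact ⟨l3 _ _ _, l3 _ _ _, l3 _ _ _⟩) (by
    refine ⟨(0, 0, 0), 3, ?_, by norm_num, by simp; norm_num⟩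
    have hc : (Equiv.swap ((0, 0, 2) : T) (0, 2, 0) * Equiv.swap (0, 0, 2) (2, 0, 0)).IsThreeCycle :=
      Equiv.Perm.isThreeCycle_swap_mul_swap_same (by decide) (by decide) (by decide)
    refine Equiv.Perm.mem_cycleType_iff.mpr ⟨_, (Equiv.swap ((0, 0, 2) : T) (0, 2, 0) *
      Equiv.swap (0, 0, 2) (2, 0, 0))⁻¹ * sg (0, 0, 0), (mul_inv_cancel_left _ _).symm, ?_, hc.isCycle, hc.card_support⟩
    unfold Equiv.Perm.Disjoint
    decide +kernel)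
  have hYZ : ∀ a, a ∈ Z ↔ a ∉ Y := fun a =>
    ⟨fun ha hb => Set.disjoint_left.mp hd hb ha,
      fun ha => (show a ∈ Y ∪ Z from hu ▸ Set.mem_univ a).resolve_left ha⟩
  have key : ∀ (f : Equiv.Perm T) (A : Set T), (∀ a ∈ A, f a ∈ A) → ∀ a, f a ∈ A ↔ a ∈ A := by
    intro f A hA a
    refine ⟨fun ha => ?_, hA a⟩
    have := (Set.Finite.injOn_iff_bijOn_of_mapsTo (Set.toFinite A) hA).mp f.injective.injOn
    obtain ⟨b, hb, hab⟩ := this.surjOn ha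
    exact f.injective hab ▸ hb
  have inv : ∀ x a, sg x a ∈ Y ↔ a ∈ Y := by
    intro x a
    by_cases hx : x ∈ Y
    · have := key (sg x) Z (h1 x hx) a
      rw [hYZ, hYZ] at this
      exact not_iff_not.mp this
    · exact key (sg x) Y (h2 x ((hYZ x).mpr hx)) a
  have all : ∀ a : T, a ∈ Y ↔ ((0, 0, 0) : T) ∈ Y := by
    rintro ⟨p, q, r⟩
    obtain ⟨c2, b1, rfl⟩ := l4 p
    obtain ⟨a2, c1, rfl⟩ := l4 q
    obtain ⟨b2, a1, rfl⟩ := l4 r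
    exact (inv (a2, b2, c2) (sg (a1, b1, c1) (0, 0, 0))).trans (inv _ _)
  exact (hYZ z).mp hz ((all z).mpr ((all y).mp hy))

end Pool.Agent.Results.MP_6d14ae_al.Counter
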